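import Pool.Agent.H78.STN.Stmts

set_option autoImplicit false

namespace Pool.STN

theorem chk_bd (A B c : ℤ) (t : ℕ) (N : ℕ) (h : |A * t - B * t| < c) (h1 : A - B = N ∨ B - A = N) :
    (N : ℤ) * t < c := by
  rcases h1 with h1 | h1
  · have h2 := (abs_lt.mp h).2
    have : (N : ℤ) * t = A * t - B * t := by rw [← h1]; ring
    rw [this]; exact h2
  · have h2 := (abs_lt.mp h).1
    have : (N : ℤ) * t = -(A * t - B * t) := by rw [← h1]; ring
    rw [this]; linarith

theorem CHK_thm : CHKStmt := by
  intro a b t hab ht habs hF hE
  rcases hab with hab | hab | hab | hab | hab | hab <;>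
    (obtain ⟨rfl, rfl⟩ := Prod.mk.inj hab) <;> clear hab
  · have h := chk_bd _ _ _ t 1 habs (by norm_num)
    norm_num at h
    have h3 : t ≤ 3 := by omega
    clear h habs
    revert hF hE
    interval_cases t <;> decide
  · have h := chk_bd _ _ _ t 5 habs (by norm_num)
    norm_num at h
    have h3 : t ≤ 3 := by omega
    clear h habs
    revert hF hE
    interval_cases t <;> decide
  · have h := chk_bd _ _ _ t 47 habs (by norm_num)
    norm_num at h
    have h3 : t ≤ 1 := by omega
    clear h habs
    revert hF hE
    interval_cases t <;> decide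
  · have h := chk_bd _ _ _ t 13 habs (by norm_num)
    norm_num at h
    have h3 : t ≤ 4 := by omega
    clear h habs
    revert hF hE
    interval_cases t <;> decide
  · have h := chk_bd _ _ _ t 139 habs (by norm_num)
    norm_num at h
    have h3 : t ≤ 1 := by omega
    clear h habs
    revert hF hE
    interval_cases t <;> decide
  · have h := chk_bd _ _ _ t 7153 habs (by norm_num)
    norm_num at h
    have h3 : t ≤ 2 := by omega
    clear h habs
    revert hF hE
    interval_cases t <;> decide

end Pool.STN
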